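import Pool.Agent.W756.ML18

/-!
A homeomorphism `h` in the class `G` for which the analytic projection of the composition operator
`V_h` is not bounded below on `BMOA`.
-/

set_option autoImplicit false

open MeasureTheory Filter Topology Complex
open scoped Real ENNReal ContDiff

namespace Pool.Agent.Results.MP_0cd561_an.PropertyLFails

/-- Mean oscillation `|I|⁻¹ ∫_I |f - f_I|` of `f` over the interval `I = (a, b]`. -/
noncomputable def osc (f : ℝ → ℂ) (a b : ℝ) : ℝ≥0∞ :=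
  ENNReal.ofReal (b - a)⁻¹ * ∫⁻ x in Set.Ioc a b, ‖f x - (b - a)⁻¹ • ∫ y in a..b, f y‖ₑ

/-- The `BMO` seminorm: the supremum of the mean oscillations over all bounded intervals. -/
noncomputable def bmoNorm (f : ℝ → ℂ) : ℝ≥0∞ := ⨆ (a : ℝ) (b : ℝ) (_ : a < b), osc f a b

/-- `f` is a function of bounded mean oscillation. -/
def IsBMO (f : ℝ → ℂ) : Prop := LocallyIntegrable f ∧ bmoNorm f < ⊤

/-- The Poisson integral of `f` at the point `z` of the upper half-plane. -/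
noncomputable def poisson (f : ℝ → ℂ) (z : ℂ) : ℂ :=
  ∫ t : ℝ, ((z.im / (π * ((t - z.re) ^ 2 + z.im ^ 2)) : ℝ) : ℂ) * f t

/-- `f` is in `BMOA`: it is in `BMO` and its Poisson extension to the upper half-plane is holomorphic. -/
def IsBMOA (f : ℝ → ℂ) : Prop := IsBMO f ∧ DifferentiableOn ℂ (poisson f) {z | 0 < z.im}

/-- The truncated Hilbert integral
`(1/π) ∫_{|x - t| > ε} (1 / (x - t) + t / (1 + t²)) f(t) dt`. -/
noncomputable def truncHilbert (f : ℝ → ℂ) (ε x : ℝ) : ℂ :=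
  (π : ℂ)⁻¹ * ∫ t in {t : ℝ | ε < |x - t|}, ((1 / (x - t) + t / (1 + t ^ 2) : ℝ) : ℂ) * f t

/-- `g` is the Hilbert transform of `f`: the principal value of the Hilbert integral exists and
equals `g` almost everywhere. -/
def IsHilbert (f g : ℝ → ℂ) : Prop :=
  ∀ᵐ x : ℝ, Tendsto (fun ε => truncHilbert f ε x) (𝓝[>] 0) (𝓝 (g x))

/-- `a = P f` with `P = (I + i H) / 2`. -/
def IsProj (f a : ℝ → ℂ) : Prop :=
  ∃ g : ℝ → ℂ, IsHilbert f g ∧ ∀ x, a x = (1 / 2 : ℂ) * (f x + I * g x)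

/-- The weight `w` is in the Muckenhoupt class `A^∞`: `w(E) / w(I) ≤ C (|E| / |I|)^δ` for all bounded
intervals `I = [a, b]` and measurable `E ⊆ I`. -/
def IsAinfty (w : ℝ → ℝ) : Prop :=
  (∀ x, 0 ≤ w x) ∧ LocallyIntegrable w ∧ (∀ a b : ℝ, a < b → 0 < ∫ x in Set.Icc a b, w x) ∧
    ∃ C δ : ℝ, 0 < C ∧ 0 < δ ∧ ∀ a b : ℝ, a < b → ∀ E : Set ℝ, MeasurableSet E → E ⊆ Set.Icc a b →
      (∫ x in E, w x) / (∫ x in Set.Icc a b, w x) ≤ C * ((volume E).toReal / (b - a)) ^ δ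

/-- `h` is an increasing homeomorphism of the line onto itself, locally absolutely continuous, whose
derivative is in `A^∞`. -/
structure InG (h : ℝ → ℝ) : Prop where
  strictMono : StrictMono h
  continuous : Continuous h
  surjective : Function.Surjective h
  locAC : ∀ a b : ℝ, AbsolutelyContinuousOnInterval h a b
  ainfty : IsAinfty (deriv h)

/-- Property (L) of `h`: `‖P (f ∘ h)‖_BMO ≥ c ‖f‖_BMO` for all `f` in `BMOA`, with some `c > 0`. -/
def PropertyL (h : ℝ → ℝ) : Prop :=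
  ∃ c : ℝ, 0 < c ∧ ∀ f : ℝ → ℂ, IsBMOA f → ∀ a : ℝ → ℂ, IsProj (fun x => f (h x)) a →
    ENNReal.ofReal c * bmoNorm f ≤ bmoNorm a

theorem bmoNorm_eq (f : ℝ → ℂ) : bmoNorm f = Pool.Agent.W756.ML.bmoNorm f := rfl

theorem poisson_eq (f : ℝ → ℂ) : poisson f = Pool.Agent.W756.ML.poisson f := rfl

theorem truncHilbert_eq (f : ℝ → ℂ) : truncHilbert f = Pool.Agent.W756.ML.truncHilbert f := rfl

open Pool.Agent.W756.ML in
theorem osc_const_mul (c : ℂ) (f : ℝ → ℂ) (a b : ℝ) :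
    osc (fun x => c * f x) a b = ‖c‖ₑ * osc f a b := by
  unfold osc
  have e1 : ∫ y in a..b, c * f y = c * ∫ y in a..b, f y := intervalIntegral.integral_const_mul _ _
  have e2 : ∀ x, ‖c * f x - (b - a)⁻¹ • ∫ y in a..b, c * f y‖ₑ
      = ‖c‖ₑ * ‖f x - (b - a)⁻¹ • ∫ y in a..b, f y‖ₑ := by
    intro x
    rw [e1, ← enorm_mul]
    congr 1
    rw [mul_sub, mul_smul_comm]
  simp_rw [e2]
  rw [lintegral_const_mul' _ _ enorm_ne_top, mul_left_comm]

theorem bmoNorm_const_mul (c : ℂ) (f : ℝ → ℂ) : bmoNorm (fun x => c * f x) = ‖c‖ₑ * bmoNorm f := by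
  unfold bmoNorm
  simp_rw [osc_const_mul, ENNReal.mul_iSup]

open Pool.Agent.W756.ML in
theorem isProj_E {m : ℝ → ℂ} (hm : Integrable m) :
    ∃ c : ℂ, IsProj (E m) (fun x => E (cutP m) x + c) := by
  obtain ⟨c0, hc0⟩ := lim_eq hm
  refine ⟨(1 / 2 : ℂ) * (I * c0), fun x => -I * E (cutP m) x + I * E (cutN m) x + c0, ?_, fun x => ?_⟩
  · refine Eventually.of_forall fun x => ?_
    have := trunc_tendsto hm x
    rw [hc0 x] at this
    exact this
  · have h1 := E_cut hm x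
    rw [← h1]
    have hI : I * I = -1 := Complex.I_mul_I
    linear_combination (1 / 2 : ℂ) * (E (cutP m) x - E (cutN m) x) * hI

open Pool.Agent.W756.ML in
theorem E_cmul (c : ℂ) (m : ℝ → ℂ) (x : ℝ) : E (fun ξ => c * m ξ) x = c * E m x := by
  rw [E_def, E_def, ← integral_const_mul]
  refine integral_congr_ae (Eventually.of_forall fun ξ => ?_)
  simp only; ring

open Pool.Agent.W756.ML in
theorem bmo_E {m : ℝ → ℂ} (hm : Integrable m) : IsBMO (E m) := by
  refine ⟨(continuous_E hm).locallyIntegrable, ?_⟩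
  rw [bmoNorm_eq]
  refine (bmoNorm_le (continuous_E hm) (K := ∫ ξ, ‖m ξ‖) fun a b hab => ⟨0, ?_⟩).trans_lt ENNReal.ofReal_lt_top
  have h1 : ∫ x in a..b, ‖E m x - 0‖ ≤ ∫ x in a..b, ∫ ξ, ‖m ξ‖ := by
    refine intervalIntegral.integral_mono_on hab.le ?_ intervalIntegrable_const fun x _ => ?_
    · exact ((continuous_E hm).sub continuous_const).norm.intervalIntegrable _ _
    · rw [sub_zero]; exact norm_E_le m x
  refine h1.trans (le_of_eq ?_)
  rw [intervalIntegral.integral_const, smul_eq_mul, mul_comm]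

open Pool.Agent.W756.ML in
theorem inG_of {h κ : ℝ → ℝ} (H : Dif h κ) {C : ℝ} (hC : 0 < C)
    (hRH : ∀ s x t : ℝ, s < t → s ≤ x → x ≤ t → deriv h x * (t - s) ≤ C * (h t - h s)) : InG h := by
  have hc : Continuous (deriv h) := (contDiff_infty_iff_deriv.1 H.sm).2.continuous
  have hI : ∀ a b : ℝ, a < b → ∫ x in Set.Icc a b, deriv h x = h b - h a := by
    intro a b hab
    rw [integral_Icc_eq_integral_Ioc, ← intervalIntegral.integral_of_le hab.le]
    exact intervalIntegral.integral_eq_sub_of_hasDerivAt (fun x _ => H.hasDerivAt x)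
      (hc.intervalIntegrable _ _)
  refine ⟨H.strictMono, H.sm.continuous, fun y => ⟨κ y, H.right y⟩, fun a b => ?_, fun x => (H.pos x).le,
    hc.locallyIntegrable, fun a b hab => ?_, C, 1, hC, one_pos, fun a b hab E hE hEI => ?_⟩
  · exact ((H.sm.of_le (by norm_cast)).contDiffOn).absolutelyContinuousOnInterval
  · rw [hI a b hab]
    exact sub_pos.2 (H.strictMono hab)
  · have hpos : 0 < h b - h a := sub_pos.2 (H.strictMono hab)
    have hba : 0 < b - a := by linarith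
    rw [hI a b hab, Real.rpow_one, div_le_iff₀ hpos]
    have hfin : volume E < ⊤ := (measure_mono hEI).trans_lt (by rw [Real.volume_Icc]; exact ENNReal.ofReal_lt_top)
    have hbd : ∀ x ∈ E, ‖deriv h x‖ ≤ C * (h b - h a) / (b - a) := by
      intro x hx
      obtain ⟨h1, h2⟩ := hEI hx
      rw [Real.norm_of_nonneg (H.pos x).le, le_div_iff₀ hba]
      exact hRH a x b hab h1 h2
    have h1 := norm_setIntegral_le_of_norm_le_const hfin hbd
    calc ∫ x in E, deriv h x ≤ ‖∫ x in E, deriv h x‖ := Real.le_norm_self _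
      _ ≤ C * (h b - h a) / (b - a) * volume.real E := h1
      _ = C * ((volume E).toReal / (b - a)) * (h b - h a) := by
          rw [measureReal_def]
          field_simp

open Pool.Agent.W756.ML in
theorem main : ∃ h : ℝ → ℝ, InG h ∧ ContDiff ℝ ∞ h ∧ (∀ x, 0 < deriv h x) ∧ ¬ PropertyL h ∧
    ∃ f a : ℕ → ℝ → ℂ, (∀ k, IsBMOA (f k) ∧ (∃ c : ℂ, IsProj (f k) (fun x => f k x + c)) ∧
      bmoNorm (f k) = 1 ∧ IsBMO (fun x => f k (h x)) ∧ IsProj (fun x => f k (h x)) (a k) ∧ IsBMO (a k)) ∧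
      Tendsto (fun k => bmoNorm (a k)) atTop (𝓝 0) := by
  obtain ⟨h, κ, C, H, hC, hRH, n, μ, γ, hγ, hall⟩ := assembly
  -- the data
  have hfin : ∀ k, bmoNorm (E (n k)) < ⊤ := fun k => (bmo_E (hall k).1.int).2
  set ν : ℕ → ℝ := fun k => (bmoNorm (E (n k))).toReal with hν
  have hνe : ∀ k, ENNReal.ofReal (ν k) = bmoNorm (E (n k)) := fun k => ENNReal.ofReal_toReal (hfin k).ne
  have hνγ : ∀ k, γ ≤ ν k := by
    intro k
    have h1 := (hall k).2.2.2.2.1
    rw [← bmoNorm_eq, ← hνe k] at h1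
    exact (ENNReal.ofReal_le_ofReal_iff ENNReal.toReal_nonneg).1 h1
  have hν0 : ∀ k, 0 < ν k := fun k => hγ.trans_le (hνγ k)
  set w : ℕ → ℂ := fun k => (((ν k)⁻¹ : ℝ) : ℂ) with hw
  have hwn : ∀ k, ‖w k‖ = (ν k)⁻¹ := fun k => by
    simp only [hw]
    rw [Complex.norm_real, Real.norm_of_nonneg (inv_nonneg.2 (hν0 k).le)]
  set n' : ℕ → ℝ → ℂ := fun k ξ => w k * n k ξ with hn'
  set μ' : ℕ → ℝ → ℂ := fun k ξ => w k * μ k ξ with hμ'
  have hn'i : ∀ k, Integrable (n' k) := fun k => (hall k).1.int.const_mul _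
  have hμ'i : ∀ k, Integrable (μ' k) := fun k => (hall k).2.2.1.const_mul _
  have hcomp : ∀ k, (fun x => E (n' k) (h x)) = E (μ' k) := by
    intro k
    funext x
    simp only [hn', hμ']
    rw [E_cmul, E_cmul, (hall k).2.2.2.1]
  have hcutn : ∀ k, cutP (n' k) = n' k := by
    intro k
    funext ξ
    unfold cutP
    by_cases hξ : ξ ∈ Set.Ioi (0:ℝ)
    · rw [Set.indicator_of_mem hξ]
    · rw [Set.indicator_of_notMem hξ]
      simp only [hn']
      rw [(hall k).2.1 ξ (by simpa using hξ), mul_zero]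
  have hcutμ : ∀ k, cutP (μ' k) = fun ξ => w k * cutP (μ k) ξ := by
    intro k
    funext ξ
    unfold cutP
    by_cases hξ : ξ ∈ Set.Ioi (0:ℝ)
    · rw [Set.indicator_of_mem hξ, Set.indicator_of_mem hξ]
    · rw [Set.indicator_of_notMem hξ, Set.indicator_of_notMem hξ, mul_zero]
  choose c1 hc1 using fun k => isProj_E (hn'i k)
  choose c2 hc2 using fun k => isProj_E (hμ'i k)
  have hnorm1 : ∀ k, bmoNorm (E (n' k)) = 1 := by
    intro k
    have e : E (n' k) = fun x => w k * E (n k) x := by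
      funext x
      simp only [hn']
      rw [E_cmul]
    rw [e, bmoNorm_const_mul, ← hνe k]
    have h1 : ‖w k‖ₑ = ENNReal.ofReal (ν k)⁻¹ := by
      rw [← ofReal_norm, hwn]
    rw [h1, ← ENNReal.ofReal_mul (inv_nonneg.2 (hν0 k).le), inv_mul_cancel₀ (hν0 k).ne', ENNReal.ofReal_one]
  have hacont : ∀ k, Continuous fun x => E (cutP (μ' k)) x + c2 k := fun k =>
    (continuous_E (cutP_integrable (hμ'i k))).add continuous_const
  have hsmall : ∀ k, bmoNorm (fun x => E (cutP (μ' k)) x + c2 k) ≤ ENNReal.ofReal (2 * (15 / γ / ((k : ℝ) + 1))) := by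
    intro k
    rw [bmoNorm_eq]
    refine bmoNorm_le (hacont k) fun a b hab => ?_
    obtain ⟨c, hc⟩ := (hall k).2.2.2.2.2 a b hab
    refine ⟨w k * c + c2 k, ?_⟩
    have e : ∀ x, ‖E (cutP (μ' k)) x + c2 k - (w k * c + c2 k)‖ = (ν k)⁻¹ * ‖E (cutP (μ k)) x - c‖ := by
      intro x
      rw [hcutμ, E_cmul, ← hwn, ← norm_mul]
      congr 1; ring
    simp_rw [e]
    rw [intervalIntegral.integral_const_mul]
    have hk : (0:ℝ) < (k : ℝ) + 1 := by positivity
    have h1 : (ν k)⁻¹ ≤ γ⁻¹ := inv_anti₀ hγ (hνγ k)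
    have h2 : 0 ≤ ∫ x in a..b, ‖E (cutP (μ k)) x - c‖ :=
      intervalIntegral.integral_nonneg hab.le fun x _ => norm_nonneg _
    calc (ν k)⁻¹ * ∫ x in a..b, ‖E (cutP (μ k)) x - c‖ ≤ γ⁻¹ * ((15 / ((k : ℝ) + 1)) * (b - a)) :=
          mul_le_mul h1 hc h2 (inv_nonneg.2 hγ.le)
      _ = 15 / γ / ((k : ℝ) + 1) * (b - a) := by field_simp
  have hlim : Tendsto (fun k => bmoNorm (fun x => E (cutP (μ' k)) x + c2 k)) atTop (𝓝 0) := by
    have h1 : Tendsto (fun k : ℕ => 2 * (15 / γ / ((k : ℝ) + 1))) atTop (𝓝 0) := by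
      have h2 := tendsto_one_div_add_atTop_nhds_zero_nat (𝕜 := ℝ)
      have h3 := h2.const_mul (2 * (15 / γ))
      rw [mul_zero] at h3
      refine h3.congr fun k => ?_
      ring
    have h4 := ENNReal.tendsto_ofReal h1
    rw [ENNReal.ofReal_zero] at h4
    exact tendsto_of_tendsto_of_tendsto_of_le_of_le tendsto_const_nhds h4 (fun k => zero_le) hsmall
  have hbmoa : ∀ k, IsBMOA (E (n' k)) := by
    intro k
    refine ⟨bmo_E (hn'i k), ?_⟩
    rw [poisson_eq]
    refine poisson_E_holo (hn'i k) fun ξ hξ => ?_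
    simp only [hn']
    rw [(hall k).2.1 ξ hξ.le, mul_zero]
  have hproj : ∀ k, IsProj (fun x => E (n' k) (h x)) (fun x => E (cutP (μ' k)) x + c2 k) := by
    intro k
    rw [hcomp k]
    exact hc2 k
  refine ⟨h, inG_of H hC hRH, H.sm, H.pos, ?_, fun k => E (n' k), fun k x => E (cutP (μ' k)) x + c2 k,
    fun k => ⟨hbmoa k, ⟨c1 k, ?_⟩, hnorm1 k, ?_, hproj k, ?_⟩, hlim⟩
  · rintro ⟨c, hc, hL⟩
    have h1 : ∀ k, ENNReal.ofReal c ≤ bmoNorm (fun x => E (cutP (μ' k)) x + c2 k) := by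
      intro k
      have := hL _ (hbmoa k) _ (hproj k)
      rwa [hnorm1 k, mul_one] at this
    have h2 : ENNReal.ofReal c ≤ 0 := ge_of_tendsto' hlim h1
    have h3 : 0 < ENNReal.ofReal c := ENNReal.ofReal_pos.2 hc
    exact absurd h2 (not_le.2 h3)
  · have := hc1 k
    rw [hcutn k] at this
    exact this
  · show IsBMO (fun x => E (n' k) (h x))
    rw [hcomp k]
    exact bmo_E (hμ'i k)
  · exact ⟨(hacont k).locallyIntegrable, (hsmall k).trans_lt ENNReal.ofReal_lt_top⟩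

/-- There is `h` in `G` (in fact an infinitely differentiable diffeomorphism) which does not have
property (L): there are `f_k` in `BMOA` with `‖f_k‖_BMO = 1` and `‖P (f_k ∘ h)‖_BMO → 0`. -/
theorem result : ∃ h : ℝ → ℝ, InG h ∧ ContDiff ℝ ∞ h ∧ (∀ x, 0 < deriv h x) ∧ ¬ PropertyL h ∧
    ∃ f a : ℕ → ℝ → ℂ, (∀ k, IsBMOA (f k) ∧ (∃ c : ℂ, IsProj (f k) (fun x => f k x + c)) ∧
      bmoNorm (f k) = 1 ∧ IsBMO (fun x => f k (h x)) ∧ IsProj (fun x => f k (h x)) (a k) ∧ IsBMO (a k)) ∧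
      Tendsto (fun k => bmoNorm (a k)) atTop (𝓝 0) :=
  main

end Pool.Agent.Results.MP_0cd561_an.PropertyLFails
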